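import Pool.Agent.TH455.FP.Main
import Pool.Agent.TH676.Z.Main

set_option autoImplicit false
set_option linter.unusedSectionVars false

/-! # No minimal counterexample of treewidth at most six for `q > 6` -/

namespace Pool.Agent.TH455.FP

open Finset Pool.Agent.H753R2.FR Pool.Agent.H753R2.FR.E1 Pool.Agent.TH499.TF Pool.Agent.TH325.FR

variable {V E : Type} [Fintype V] [DecidableEq V] [Fintype E] [DecidableEq E]
variable {q : ℝ} {G : MG V E}

theorem MCE.five' (h : MCE q G) (hq : 5 < q) (a b c d e : V) (h1 : Ad G.x G.y a b)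
    (h2 : Ad G.x G.y b c) (h3 : Ad G.x G.y c d)
    (h4 : Ad G.x G.y d e) (h5 : Ad G.x G.y e a) : False := by
  refine h.five hq a b c d e ?_ ?_ ?_ h1 h2 h3 h4 h5
  · rintro rfl
    exact h.three hq _ _ _ h3 h4 h5
  · rintro rfl
    exact h.three hq _ _ _ h1 h2 h3
  · rintro rfl
    exact h.three hq _ _ _ h2 h3 h4

theorem MCE.six (h : MCE q G) (hq : 6 < q) (a b c d e f : V) (h1 : Ad G.x G.y a b)
    (h2 : Ad G.x G.y b c) (h3 : Ad G.x G.y c d) (h4 : Ad G.x G.y d e) (h5 : Ad G.x G.y e f)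
    (h6 : Ad G.x G.y f a) (hac : a ≠ c) (hea : e ≠ a) (hfb : f ≠ b) : False := by
  have had : a ≠ d := by
    rintro rfl
    exact h.three (by linarith) _ _ _ h1 h2 h3
  obtain ⟨n1, e1, j1⟩ := h1
  obtain ⟨n2, e2, j2⟩ := h2
  obtain ⟨n3, e3, j3⟩ := h3
  obtain ⟨n4, e4, j4⟩ := h4
  obtain ⟨n5, e5, j5⟩ := h5
  obtain ⟨n6, e6, j6⟩ := h6
  have hA : e1 ∉ ({e2, e3, e4, e5, e6} : Finset E) := by
    simp only [mem_insert, mem_singleton, not_or]
    refine ⟨?_, ?_, ?_, ?_, ?_⟩ <;> rintro rfl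
    · rcases jends j1 j2 with ⟨a1, a2⟩ | ⟨a1, a2⟩
      · exact n1 a1
      · exact hac a1
    · rcases jends j1 j3 with ⟨a1, a2⟩ | ⟨a1, a2⟩
      · exact hac a1
      · exact had a1
    · rcases jends j1 j4 with ⟨a1, a2⟩ | ⟨a1, a2⟩
      · exact had a1
      · exact hea a1.symm
    · rcases jends j1 j5 with ⟨a1, a2⟩ | ⟨a1, a2⟩
      · exact hea a1.symm
      · exact n6 a1.symm
    · rcases jends j1 j6 with ⟨a1, a2⟩ | ⟨a1, a2⟩
      · exact n6 a1.symm
      · exact hfb a2.symm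
  have m2 : conn G {e2, e3, e4, e5, e6} b c := conn_joins (by simp) j2
  have m3 : conn G {e2, e3, e4, e5, e6} c d := conn_joins (by simp) j3
  have m4 : conn G {e2, e3, e4, e5, e6} d e := conn_joins (by simp) j4
  have m5 : conn G {e2, e3, e4, e5, e6} e f := conn_joins (by simp) j5
  have m6 : conn G {e2, e3, e4, e5, e6} f a := conn_joins (by simp) j6
  have m := (conn G {e2, e3, e4, e5, e6}).trans ((conn G {e2, e3, e4, e5, e6}).trans
    ((conn G {e2, e3, e4, e5, e6}).trans ((conn G {e2, e3, e4, e5, e6}).trans m2 m3) m4) m5) m6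
  refine h.short (by linarith) _ ?_ (dep_of j1 hA ((conn G {e2, e3, e4, e5, e6}).symm m))
  have h3 : (insert e1 ({e2, e3, e4, e5, e6} : Finset E)).card ≤ 6 := card_le_six
  have : ((insert e1 ({e2, e3, e4, e5, e6} : Finset E)).card : ℝ) ≤ 6 := by exact_mod_cast h3
  linarith

theorem MCE.gi (h : MCE q G) (hq : 6 < q) : TH676.Z.Gi (TH676.Z.Adj G.x G.y) where
  symm := fun {a b} h => Ad.symm (src := G.x) (dst := G.y) h
  c2 := fun a h => h.1 rfl
  c3 := fun a b c h1 h2 h3 => h.three (by linarith) a b c h1 h2 h3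
  c4 := fun a b c d h1 h2 h3 h4 n1 n2 => h.four (by linarith) a b c d n1 n2 h1 h2 h3 h4
  c5 := fun a b c d e h1 h2 h3 h4 h5 => h.five' (by linarith) a b c d e h1 h2 h3 h4 h5
  c6 := fun a b c d e f h1 h2 h3 h4 h5 h6 n1 _ _ _ n5 n6 =>
    h.six hq a b c d e f h1 h2 h3 h4 h5 h6 n1 n5 n6

theorem no_mce6 (hq : 6 < q) (hT : HasTD 7 G.x G.y) : ¬ MCE q G := by
  intro h
  by_cases hE : Nonempty E
  · obtain ⟨e⟩ := hE
    obtain ⟨In, hB⟩ := TH676.Z.bags (src := G.x) (dst := G.y) hT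
    refine TH676.Z.graph_all V (TH676.Z.Adj G.x G.y) In (h.gi hq) ?_ hB (G.x e) (G.y e)
      ⟨h.loop e, e, Or.inl ⟨rfl, rfl⟩⟩
    intro x y hxy
    obtain ⟨a, b, c, n1, n2, n3, h1, h2, h3⟩ := h.nbr (by linarith) x y hxy
    exact ⟨a, b, c, h1, h2, h3, n1, n3, n2⟩
  · have h1 : (univ : Finset E) = ∅ := by
      apply Finset.eq_empty_of_forall_notMem
      intro e _
      exact hE ⟨e⟩
    have h2 := h.neg
    rw [h1, m_empty] at h2
    have := pow_pos (by linarith : (0 : ℝ) < q) (cl (⊥ : Setoid V))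
    linarith

/-- the flow polynomial is positive on `(6, ∞)` for treewidth at most six -/
theorem pos_tw6 (hq : 6 < q) (V E : Type) [Fintype V] [DecidableEq V] [Fintype E] [DecidableEq E]
    [Nonempty V] (G : MG V E) (hT : HasTD 7 G.x G.y) (hb : Bridgeless G) : 0 < m G q ⊥ univ :=
  exists_mce (by linarith) (fun _ _ _ _ _ _ _ _ hT => no_mce6 hq hT)
    (Fintype.card V + Fintype.card E + 1) V E G (by omega) hT hb

end Pool.Agent.TH455.FP
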