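import Mathlib
import Pool.Agent.H753R2.FR.T_D6b
import Pool.Agent.TH362.FP.Pos
import Pool.Agent.TH362.FP.Br
import Pool.Agent.TH497.TW.Std
import Pool.Agent.TH497.PW.IntFlow
import Pool.Agent.TH455.FP.Seven

set_option autoImplicit false

/-! # From minors to the flow polynomial of a graph with edges `ends` -/

namespace Pool.Agent.TH455.FP

open Finset Pool.Agent.H753R2.FR Pool.Agent.H753R2.FR.D6b

/-- the flow polynomial is positive at `q` if the normalised one is -/
theorem pos_of_m (n m' : ℕ) (ends : Fin m' → Fin n × Fin n) (q : ℝ) (hq : 2 < q)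
    (h : 0 < n → 0 < m (gr ends) q ⊥ univ) :
      0 < ∑ A ∈ (Finset.univ : Finset (Fin m')).powerset,
        (-1 : ℝ) ^ (m' - A.card) *
          q ^ (A.card + Nat.card (SimpleGraph.fromRel
                (fun u v : Fin n => ∃ f ∈ A, ends f = (u, v))).ConnectedComponent - n) := by
  simp only [cl_conn_eq]
  rcases Nat.eq_zero_or_pos n with hn | hn
  · subst hn
    have hk : m' = 0 := by
      rcases Nat.eq_zero_or_pos m' with hk | hk
      · exact hk
      · exact (ends ⟨0, hk⟩).1.elim0
    subst hk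
    have h0 : cl (conn (gr ends) ∅) = 0 := by
      unfold cl
      have : IsEmpty (Quotient (conn (gr ends) ∅)) := ⟨fun x => by
        induction x using Quotient.inductionOn with
        | h a => exact a.elim0⟩
      exact Nat.card_of_isEmpty
    simp [h0]
  · have h1 := flow_eval (gr ends) q (by linarith)
    have h2 := h hn
    have h3 : 0 < (q - 1) ^ m' := pow_pos (by linarith) m'
    have h4 : 0 < q ^ n := pow_pos (by linarith) n
    by_contra hneg
    push Not at hneg
    have h5 := mul_nonpos_of_nonpos_of_nonneg hneg h4.le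
    rw [h1] at h5
    have h6 := mul_pos h2 h3
    linarith

/-- a nowhere-zero 5-flow for treewidth at most six (helper676) -/
theorem five_flow {n m' : ℕ} (ends : Fin m' → Fin n × Fin n)
    (hT : TH497.TW.HasTD 7 (fun e => (ends e).1) (fun e => (ends e).2))
    (hb : ∀ X : Finset (Fin n),
      (univ.filter (fun e => ¬ ((ends e).1 ∈ X ↔ (ends e).2 ∈ X))).card ≠ 1) :
    ∃ f : Fin m' → ℤ, (∀ e, 1 ≤ |f e| ∧ |f e| ≤ 4) ∧
      ∀ v, ∑ e ∈ univ.filter (fun e => (ends e).1 = v), f e =
        ∑ e ∈ univ.filter (fun e => (ends e).2 = v), f e := by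
  have hfl := TH676.Z.flowOn hT (fun Y _ => by rw [Finset.sdiff_empty]; exact hb Y)
  have hnz : TH497.PW.NZF (fun e => (ends e).1) (fun e => (ends e).2) := by
    obtain ⟨f, h1, _, h3⟩ := hfl
    refine ⟨f, fun e => h3 e (Finset.notMem_empty _) (Finset.notMem_empty _), fun x => ?_⟩
    rw [← h1 x]
    unfold TH676.Z.bd
    refine Finset.sum_congr rfl fun e _ => ?_
    unfold TH497.PW.ic
    by_cases h4 : (ends e).1 = x <;> by_cases h5 : (ends e).2 = x <;> simp [h4, h5]
  obtain ⟨F, hF, hF0⟩ := TH497.PW.int_flow _ _ hnz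
  refine ⟨F, hF, fun v => ?_⟩
  rw [Finset.sum_filter, Finset.sum_filter, ← sub_eq_zero, ← Finset.sum_sub_distrib]
  refine Eq.trans (Finset.sum_congr rfl fun e _ => ?_) (hF0 v)
  by_cases h1 : (ends e).1 = v <;> by_cases h2 : (ends e).2 = v <;> simp [h1, h2]

end Pool.Agent.TH455.FP
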