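import Pool.Agent.TH455.FP.Min
import Pool.Agent.TH455.SC4.NoTD

set_option autoImplicit false
set_option linter.unusedSectionVars false

/-! # No minimal counterexample of treewidth at most four -/

namespace Pool.Agent.TH455.FP

open Finset Pool.Agent.H753R2.FR Pool.Agent.H753R2.FR.E1 Pool.Agent.TH499.TF Pool.Agent.TH325.FR

variable {V E : Type} [Fintype V] [DecidableEq V] [Fintype E] [DecidableEq E]
variable {q : ℝ} {G : MG V E}

theorem conn_joins {A : Finset E} {e : E} {a b : V} (he : e ∈ A) (h : Joins G.x G.y e a b) :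
    conn G A a b := by
  have h1 : conn G A (G.x e) (G.y e) := (conn_le_iff G).1 le_rfl e he
  rcases h with ⟨h2, h3⟩ | ⟨h2, h3⟩
  · rw [h2, h3] at h1; exact h1
  · rw [h2, h3] at h1; exact (conn G A).symm h1

theorem dep_of {A : Finset E} {e : E} {a b : V} (he : Joins G.x G.y e a b) (hA : e ∉ A)
    (hc : conn G A a b) : Dep G (insert e A) := by
  refine ⟨e, mem_insert_self e A, ?_⟩
  rw [erase_insert hA]
  rcases he with ⟨h2, h3⟩ | ⟨h2, h3⟩
  · rw [h2, h3]; exact hc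
  · rw [h2, h3]; exact (conn G A).symm hc

theorem jends {e : E} {a b c d : V} (h : Joins G.x G.y e a b) (h' : Joins G.x G.y e c d) :
    (a = c ∧ b = d) ∨ (a = d ∧ b = c) := by
  rcases h with ⟨h1, h2⟩ | ⟨h1, h2⟩ <;> rcases h' with ⟨h3, h4⟩ | ⟨h3, h4⟩
  · exact Or.inl ⟨h1.symm.trans h3, h2.symm.trans h4⟩
  · exact Or.inr ⟨h1.symm.trans h3, h2.symm.trans h4⟩
  · exact Or.inr ⟨h2.symm.trans h4, h1.symm.trans h3⟩
  · exact Or.inl ⟨h2.symm.trans h4, h1.symm.trans h3⟩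

theorem MCE.two (h : MCE q G) (hq : 5 < q) {e e' : E} {a b : V} (h1 : Joins G.x G.y e a b)
    (h2 : Joins G.x G.y e' a b) : e = e' := by
  by_contra hne
  have hd := dep_of (A := {e'}) h1 (by simpa using hne) (conn_joins (mem_singleton_self _) h2)
  refine h.short (by linarith) _ ?_ hd
  have h3 : (insert e ({e'} : Finset E)).card ≤ 2 := card_le_two
  have : ((insert e ({e'} : Finset E)).card : ℝ) ≤ 2 := by exact_mod_cast h3
  linarith

theorem MCE.five (h : MCE q G) (hq : 5 < q) (a b c d e : V) (hac : a ≠ c) (had : a ≠ d)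
    (hbe : b ≠ e) (h1 : Ad G.x G.y a b) (h2 : Ad G.x G.y b c) (h3 : Ad G.x G.y c d)
    (h4 : Ad G.x G.y d e) (h5 : Ad G.x G.y e a) : False := by
  obtain ⟨n1, e1, j1⟩ := h1
  obtain ⟨n2, e2, j2⟩ := h2
  obtain ⟨n3, e3, j3⟩ := h3
  obtain ⟨n4, e4, j4⟩ := h4
  obtain ⟨n5, e5, j5⟩ := h5
  have hA : e1 ∉ ({e2, e3, e4, e5} : Finset E) := by
    simp only [mem_insert, mem_singleton, not_or]
    refine ⟨?_, ?_, ?_, ?_⟩ <;> rintro rfl
    · rcases jends j1 j2 with ⟨a1, a2⟩ | ⟨a1, a2⟩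
      · exact n1 a1
      · exact hac a1
    · rcases jends j1 j3 with ⟨a1, a2⟩ | ⟨a1, a2⟩
      · exact hac a1
      · exact had a1
    · rcases jends j1 j4 with ⟨a1, a2⟩ | ⟨a1, a2⟩
      · exact had a1
      · exact n5 a1.symm
    · rcases jends j1 j5 with ⟨a1, a2⟩ | ⟨a1, a2⟩
      · exact n5 a1.symm
      · exact hbe a2
  have m2 : conn G {e2, e3, e4, e5} b c := conn_joins (by simp) j2
  have m3 : conn G {e2, e3, e4, e5} c d := conn_joins (by simp) j3
  have m4 : conn G {e2, e3, e4, e5} d e := conn_joins (by simp) j4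
  have m5 : conn G {e2, e3, e4, e5} e a := conn_joins (by simp) j5
  have m := (conn G {e2, e3, e4, e5}).trans ((conn G {e2, e3, e4, e5}).trans
    ((conn G {e2, e3, e4, e5}).trans m2 m3) m4) m5
  refine h.short (by linarith) _ ?_ (dep_of j1 hA ((conn G {e2, e3, e4, e5}).symm m))
  have h3 : (insert e1 ({e2, e3, e4, e5} : Finset E)).card ≤ 5 := card_le_five
  have : ((insert e1 ({e2, e3, e4, e5} : Finset E)).card : ℝ) ≤ 5 := by exact_mod_cast h3
  linarith

theorem MCE.four (h : MCE q G) (hq : 5 < q) (a b c d : V) (hac : a ≠ c) (hbd : b ≠ d)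
    (h1 : Ad G.x G.y a b) (h2 : Ad G.x G.y b c) (h3 : Ad G.x G.y c d)
    (h4 : Ad G.x G.y d a) : False := by
  obtain ⟨n1, e1, j1⟩ := h1
  obtain ⟨n2, e2, j2⟩ := h2
  obtain ⟨n3, e3, j3⟩ := h3
  obtain ⟨n4, e4, j4⟩ := h4
  have hA : e1 ∉ ({e2, e3, e4} : Finset E) := by
    simp only [mem_insert, mem_singleton, not_or]
    refine ⟨?_, ?_, ?_⟩ <;> rintro rfl
    · rcases jends j1 j2 with ⟨a1, a2⟩ | ⟨a1, a2⟩
      · exact n1 a1
      · exact hac a1
    · rcases jends j1 j3 with ⟨a1, a2⟩ | ⟨a1, a2⟩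
      · exact hac a1
      · exact n4 a1.symm
    · rcases jends j1 j4 with ⟨a1, a2⟩ | ⟨a1, a2⟩
      · exact n4 a1.symm
      · exact hbd a2
  have m2 : conn G {e2, e3, e4} b c := conn_joins (by simp) j2
  have m3 : conn G {e2, e3, e4} c d := conn_joins (by simp) j3
  have m4 : conn G {e2, e3, e4} d a := conn_joins (by simp) j4
  have m := (conn G {e2, e3, e4}).trans ((conn G {e2, e3, e4}).trans m2 m3) m4
  refine h.short (by linarith) _ ?_ (dep_of j1 hA ((conn G {e2, e3, e4}).symm m))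
  have h3 : (insert e1 ({e2, e3, e4} : Finset E)).card ≤ 4 := card_le_four
  have : ((insert e1 ({e2, e3, e4} : Finset E)).card : ℝ) ≤ 4 := by exact_mod_cast h3
  linarith

theorem MCE.three (h : MCE q G) (hq : 5 < q) (a b c : V)
    (h1 : Ad G.x G.y a b) (h2 : Ad G.x G.y b c) (h3 : Ad G.x G.y c a) : False := by
  obtain ⟨n1, e1, j1⟩ := h1
  obtain ⟨n2, e2, j2⟩ := h2
  obtain ⟨n3, e3, j3⟩ := h3
  have hA : e1 ∉ ({e2, e3} : Finset E) := by
    simp only [mem_insert, mem_singleton, not_or]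
    refine ⟨?_, ?_⟩ <;> rintro rfl
    · rcases jends j1 j2 with ⟨a1, a2⟩ | ⟨a1, a2⟩
      · exact n1 a1
      · exact n3 a1.symm
    · rcases jends j1 j3 with ⟨a1, a2⟩ | ⟨a1, a2⟩
      · exact n3 a1.symm
      · exact n2 a2
  have m2 : conn G {e2, e3} b c := conn_joins (by simp) j2
  have m3 : conn G {e2, e3} c a := conn_joins (by simp) j3
  have m := (conn G {e2, e3}).trans m2 m3
  refine h.short (by linarith) _ ?_ (dep_of j1 hA ((conn G {e2, e3}).symm m))
  have h3 : (insert e1 ({e2, e3} : Finset E)).card ≤ 3 := card_le_three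
  have : ((insert e1 ({e2, e3} : Finset E)).card : ℝ) ≤ 3 := by exact_mod_cast h3
  linarith

theorem MCE.noC (h : MCE q G) (hq : 5 < q) : NoC (Ad G.x G.y) := by
  refine ⟨⟨fun x hx => hx.1 rfl, fun x y h => h.symm, ?_, ?_⟩, ?_, ?_, ?_, ?_⟩
  · exact fun x y z h1 h2 h3 => h.three hq x y z h1 h2 h3
  · exact fun x y z w n1 n2 h1 h2 h3 h4 => h.four hq x y z w n1 n2 h1 h2 h3 h4
  · -- x - a - x' - c - y
    rintro x y a b c d x' y' hn ⟨d1, d2⟩ ⟨d3, d4⟩
    exact h.five hq x a x' c y (by rintro rfl; simp at hn) (by rintro rfl; simp at hn)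
      (by rintro rfl; simp at hn) ((d1 a).2 (Or.inr (Or.inl rfl)))
      ((d3 a).2 (Or.inr (Or.inl rfl))).symm ((d3 c).2 (Or.inr (Or.inr rfl)))
      ((d2 c).2 (Or.inr (Or.inl rfl))).symm ((d2 x).2 (Or.inl rfl))
  · -- u - v - i - x2 - x1
    rintro u v x1 x2 y1 y2 i i' j j' hn d1 d2 ⟨d3, d4⟩ ⟨d5, d6⟩
    exact h.five hq u v i x2 x1 (by rintro rfl; simp at hn) (by rintro rfl; simp at hn)
      (by rintro rfl; simp at hn) ((d1 v).2 (Or.inl rfl)) ((d2 i).2 (Or.inr (Or.inl rfl)))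
      ((d4 i).2 (Or.inr (Or.inl rfl))).symm ((d4 x1).2 (Or.inl rfl))
      ((d3 u).2 (Or.inr (Or.inl rfl)))
  · -- u - x1 - a - y2 - x2
    rintro x1 u a y1 n c x2 b y2 x3 y3 hn ⟨d1, d2⟩ ⟨d3, d4⟩ _
    exact h.five hq u x1 a y2 x2 (by rintro rfl; simp at hn) (by rintro rfl; simp at hn)
      (by rintro rfl; simp at hn) ((d1 u).2 (Or.inr (Or.inl rfl))).symm
      ((d1 a).2 (Or.inr (Or.inr rfl))) ((d4 a).2 (Or.inr (Or.inr rfl))).symm
      ((d4 x2).2 (Or.inl rfl)) ((d3 u).2 (Or.inr (Or.inl rfl)))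
  · -- x1 - u - x2 - y2 - b
    rintro x1 u b y1 a n x2 c y2 x3 y3 hn ⟨d1, d2⟩ ⟨d3, d4⟩ _
    exact h.five hq x1 u x2 y2 b (by rintro rfl; simp at hn) (by rintro rfl; simp at hn)
      (by rintro rfl; simp at hn) ((d1 u).2 (Or.inr (Or.inl rfl)))
      ((d3 u).2 (Or.inr (Or.inl rfl))).symm ((d3 y2).2 (Or.inl rfl))
      ((d4 b).2 (Or.inr (Or.inr rfl))) ((d1 b).2 (Or.inr (Or.inr rfl))).symm

theorem MCE.nbr (h : MCE q G) (hq : 5 < q) (x y : V) (hxy : Ad G.x G.y x y) :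
    ∃ a b c, a ≠ b ∧ b ≠ c ∧ a ≠ c ∧ Ad G.x G.y x a ∧ Ad G.x G.y x b ∧ Ad G.x G.y x c := by
  classical
  have hne : (cut G {x} {x}ᶜ).Nonempty := by
    obtain ⟨n, e, he⟩ := hxy
    refine ⟨e, ?_⟩
    simp only [cut, mem_filter, mem_univ, true_and, mem_singleton, mem_compl]
    rcases he with ⟨h1, h2⟩ | ⟨h1, h2⟩
    · left; exact ⟨h1, by rw [h2]; exact n.symm⟩
    · right; exact ⟨by rw [h1]; exact n.symm, h2⟩
  have h3 := h.deg (by linarith) x hne
  let f : E → V := fun e => if G.x e = x then G.y e else G.x e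
  have hf : ∀ e ∈ cut G {x} {x}ᶜ, Joins G.x G.y e x (f e) ∧ x ≠ f e := by
    intro e he
    simp only [cut, mem_filter, mem_univ, true_and, mem_singleton, mem_compl] at he
    by_cases hx : G.x e = x
    · have h4 : f e = G.y e := by simp [f, hx]
      rw [h4]
      rcases he with ⟨h1, h2⟩ | ⟨h1, h2⟩
      · exact ⟨Or.inl ⟨hx, rfl⟩, fun h => h2 h.symm⟩
      · exact absurd hx h1
    · have h4 : f e = G.x e := by simp [f, hx]
      rw [h4]
      rcases he with ⟨h1, h2⟩ | ⟨h1, h2⟩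
      · exact absurd h1 hx
      · exact ⟨Or.inr ⟨rfl, h2⟩, fun h => hx h.symm⟩
  have hinj : Set.InjOn f (cut G {x} {x}ᶜ : Finset E) := by
    intro e he e' he' hee
    have h1 := (hf e he).1
    have h2 := (hf e' he').1
    rw [← hee] at h2
    exact h.two hq h1 h2
  have hcard : 2 < ((cut G {x} {x}ᶜ).image f).card := by
    rw [card_image_of_injOn hinj]; omega
  obtain ⟨a, b, c, ha, hb, hc, hab, hac, hbc⟩ := two_lt_card_iff.1 hcard
  have hA : ∀ z ∈ (cut G {x} {x}ᶜ).image f, Ad G.x G.y x z := by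
    intro z hz
    obtain ⟨e, he, rfl⟩ := mem_image.1 hz
    exact ⟨(hf e he).2, e, (hf e he).1⟩
  exact ⟨a, b, c, hab, hbc, hac, hA a ha, hA b hb, hA c hc⟩

theorem no_mce (hq : 5 < q) (hT : HasTD 5 G.x G.y) : ¬ MCE q G := by
  intro h
  by_cases hE : Nonempty E
  · obtain ⟨e⟩ := hE
    exact SC4.s2 V E G.x G.y hT ⟨G.x e, G.y e, h.loop e, e, Or.inl ⟨rfl, rfl⟩⟩
      (h.nbr hq) (h.noC hq)
  · have h1 : (univ : Finset E) = ∅ := by
      apply Finset.eq_empty_of_forall_notMem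
      intro e _
      exact hE ⟨e⟩
    have h2 := h.neg
    rw [h1, m_empty] at h2
    have := pow_pos (by linarith : (0 : ℝ) < q) (cl (⊥ : Setoid V))
    linarith

/-- the flow polynomial is positive on `(5, ∞)` for treewidth at most four -/
theorem pos_tw4 (hq : 5 < q) (V E : Type) [Fintype V] [DecidableEq V] [Fintype E] [DecidableEq E]
    [Nonempty V] (G : MG V E) (hT : HasTD 5 G.x G.y) (hb : Bridgeless G) : 0 < m G q ⊥ univ :=
  exists_mce (by linarith) (fun _ _ _ _ _ _ _ _ hT => no_mce hq hT)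
    (Fintype.card V + Fintype.card E + 1) V E G (by omega) hT hb

end Pool.Agent.TH455.FP
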