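import Pool.Agent.TH455.FP.Quot
import Pool.Agent.TH325.FR.Moore

set_option autoImplicit false
set_option linter.unusedSectionVars false

/-! # A minimal counterexample in the class of graphs of bounded treewidth -/

namespace Pool.Agent.TH455.FP

open Finset Pool.Agent.H753R2.FR Pool.Agent.H753R2.FR.E1 Pool.Agent.TH499.TF Pool.Agent.TH325.FR

/-- no counterexample with fewer than `N` vertices and edges -/
def OkS (q : ℝ) (w N : ℕ) : Prop :=
  ∀ (V E : Type) [Fintype V] [DecidableEq V] [Fintype E] [DecidableEq E] [Nonempty V]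
    (G : MG V E), Fintype.card V + Fintype.card E < N → HasTD w G.x G.y → Bridgeless G →
    0 < m G q ⊥ univ

variable {V E : Type} [Fintype V] [DecidableEq V] [Fintype E] [DecidableEq E]

theorem pos_minor [Nonempty V] {q : ℝ} {w : ℕ} (G : MG V E) (hT : HasTD w G.x G.y)
    (ok : OkS q w (Fintype.card V + Fintype.card E)) (F S : Finset E)
    (hFS : conn G F ≠ ⊥ ∨ S ≠ univ)
    (hb : ∀ e ∈ S, (conn G F ⊔ conn G (S.erase e)) (G.x e) (G.y e)) :
    0 < m G q (conn G F) S := by
  classical
  have hφ0 : ∀ a b, Quotient.mk (conn G F) a = Quotient.mk (conn G F) b ↔ conn G F a b :=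
    fun a b => Quotient.eq
  generalize hr0 : conn G F = r at *
  have hfin : Finite (Quotient r) := Quotient.finite r
  letI : Fintype (Quotient r) := Fintype.ofFinite _
  let φ : V → Quotient r := Quotient.mk r
  have hφ : Function.Surjective φ := Quotient.mk_surjective
  let ψ : {e // e ∈ S} ↪ E := Function.Embedding.subtype _
  have hψ : (univ : Finset {e // e ∈ S}).map ψ = S := by
    rw [← Finset.attach_eq_univ]; exact Finset.attach_map_val
  let G' : MG (Quotient r) {e // e ∈ S} := ⟨fun i => φ (G.x (ψ i)), fun i => φ (G.y (ψ i))⟩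
  have hr : Setoid.comap φ ⊥ = r := by
    ext a b
    rw [Setoid.comap_rel]
    exact hφ0 a b
  have h1 : m G' q ⊥ univ = m G q r S := by
    rw [← m_comap q φ hφ ψ G G' (fun _ => rfl) (fun _ => rfl) ⊥ univ, hr, hψ]
  rw [← h1]
  have hne : Nonempty (Quotient r) := ⟨φ (Classical.arbitrary V)⟩
  apply ok _ _ G'
  · have hV : Fintype.card (Quotient r) = cl r := (Nat.card_eq_fintype_card).symm
    have hE : Fintype.card {e // e ∈ S} = S.card := Fintype.card_coe S
    rw [hV, hE]
    have a1 := cl_le_card r
    have a2 : S.card ≤ Fintype.card E := card_le_univ S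
    rcases hFS with h | h
    · have := cl_lt_of_ne_bot h; omega
    · have h2 : S ⊂ univ := Finset.ssubset_univ_iff.2 h
      have := Finset.card_lt_card h2
      rw [card_univ] at this; omega
  · exact hasTD_minor G hT F φ ψ (fun a b => by rw [hr0]; exact hφ0 a b)
  · intro i
    have h1 := hb (ψ i) i.2
    have h2 : S.erase (ψ i) = ((univ : Finset {e // e ∈ S}).erase i).map ψ := by
      rw [Finset.map_erase, hψ]
    have h3 := conn_comap φ ψ G G' (fun _ => rfl) (fun _ => rfl) ⊥ (univ.erase i)
    rw [hr] at h3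
    rw [h2, h3, Setoid.comap_rel, bot_sup_eq] at h1
    exact h1

theorem nn_minor [Nonempty V] {q : ℝ} (hq : 1 < q) {w : ℕ} (G : MG V E) (hT : HasTD w G.x G.y)
    (ok : OkS q w (Fintype.card V + Fintype.card E)) (F S : Finset E)
    (hFS : conn G F ≠ ⊥ ∨ S ≠ univ) : 0 ≤ m G q (conn G F) S := by
  by_cases hb : ∀ e ∈ S, (conn G F ⊔ conn G (S.erase e)) (G.x e) (G.y e)
  · exact (pos_minor G hT ok F S hFS hb).le
  · push Not at hb
    obtain ⟨e, he, hbr⟩ := hb
    rw [← Finset.insert_erase he]
    exact (m_bridge G q hq (Finset.notMem_erase e S) _ hbr).ge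

theorem step_eq (G : MG V E) (r : Setoid V) (e : E) (B : Finset E) :
    r ⊔ pr (G.x e) (G.y e) ⊔ conn G B = r ⊔ conn G (insert e B) := by
  rw [conn_insert, sup_assoc, sup_comm (pr (G.x e) (G.y e)) (conn G B)]

theorem le_contract' (G : MG V E) {q : ℝ} (hq : 1 < q) (C : Finset E) :
    ∀ (r : Setoid V) (S : Finset E), Disjoint C S →
      (∀ B S', B ⊆ C → S' ⊆ C ∪ S → 0 ≤ m G q (r ⊔ conn G B) S') →
      m G q r (C ∪ S) ≤ (1 + 1 / (q - 1)) ^ C.card * m G q (r ⊔ conn G C) S := by
  have hp : 0 < 1 / (q - 1) := by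
    have : 0 < q - 1 := by linarith
    positivity
  induction C using Finset.induction_on with
  | empty =>
    intro r S _ _
    rw [empty_union, conn_empty, sup_bot_eq]
    simp
  | insert e C he ih =>
    intro r S hd hn
    rw [disjoint_insert_left] at hd
    have heS : e ∉ C ∪ S := by
      rw [mem_union]; tauto
    rw [insert_union, m_insert G q heS, card_insert_of_notMem he]
    have h1 : 0 ≤ m G q r (C ∪ S) := by
      have := hn ∅ (C ∪ S) (empty_subset _) (by rw [insert_union]; exact subset_insert _ _)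
      rwa [conn_empty, sup_bot_eq] at this
    have h2 := ih (r ⊔ pr (G.x e) (G.y e)) S hd.2 (fun B S' hB hS => by
      rw [step_eq]
      exact hn _ S' (insert_subset_insert e hB)
        (hS.trans (by rw [insert_union]; exact subset_insert _ _)))
    rw [step_eq] at h2
    have h4 : 0 ≤ 1 / (q - 1) * m G q r (C ∪ S) := mul_nonneg hp.le h1
    calc (1 + 1 / (q - 1)) * m G q (r ⊔ pr (G.x e) (G.y e)) (C ∪ S) - 1 / (q - 1) * m G q r (C ∪ S)
        ≤ (1 + 1 / (q - 1)) * m G q (r ⊔ pr (G.x e) (G.y e)) (C ∪ S) := by linarith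
      _ ≤ (1 + 1 / (q - 1)) * ((1 + 1 / (q - 1)) ^ C.card * m G q (r ⊔ conn G (insert e C)) S) :=
          mul_le_mul_of_nonneg_left h2 (by linarith)
      _ = _ := by rw [pow_succ]; ring

theorem circ_lower' (G : MG V E) {q : ℝ} (hq : 1 < q) (C : Finset E) (hC : C.Nonempty) :
    ∀ (r : Setoid V) (S : Finset E), Disjoint C S → Circ G r C →
      (∀ B S', B ⊆ C → S' ⊂ C ∪ S → 0 ≤ m G q (r ⊔ conn G B) S') →
      (1 + 1 / (q - 1)) ^ (C.card - 1) * (1 - (C.card - 1 : ℝ) * (1 / (q - 1))) *
        m G q (r ⊔ conn G C) S ≤ m G q r (C ∪ S) := by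
  have hp : 0 < 1 / (q - 1) := by
    have : 0 < q - 1 := by linarith
    positivity
  induction hC using Finset.Nonempty.cons_induction with
  | singleton e =>
    intro r S hd hcirc _
    have h1 := hcirc e (mem_singleton_self e)
    rw [erase_singleton, conn_empty, sup_bot_eq] at h1
    have h2 : conn G {e} = pr (G.x e) (G.y e) := by
      have := conn_insert G e ∅
      rw [conn_empty, bot_sup_eq] at this
      simpa using this
    have h3 : r ⊔ conn G {e} = r := by
      rw [h2]; exact sup_eq_left.mpr (pr_le_iff.mpr h1)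
    rw [h3, union_comm, m_loops G q r (S := {e}) (O := S) (by
      intro e' he'
      rw [mem_singleton] at he'
      rw [he']; exact h1)]
    simp
  | cons e C he hC ih =>
    intro r S hd hcirc hn
    rw [cons_eq_insert] at *
    rw [disjoint_insert_left] at hd
    have heS : e ∉ C ∪ S := by
      rw [mem_union]; tauto
    have hss : C ∪ S ⊂ insert e C ∪ S := by
      rw [insert_union]; exact ssubset_insert heS
    have hcard : (insert e C).card = C.card + 1 := card_insert_of_notMem he
    have hCpos : 1 ≤ C.card := hC.card_pos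
    -- upper bound for the deletion
    have hup := le_contract' G hq C r S hd.2 (fun B S' hB hS =>
      hn B S' (hB.trans (subset_insert e C)) (hS.trans_ssubset hss))
    have h1 : r ⊔ conn G C = r ⊔ conn G (insert e C) := by
      have h2 := hcirc e (mem_insert_self e C)
      rw [erase_insert he] at h2
      rw [conn_insert, ← sup_assoc]
      exact (sup_eq_left.mpr (pr_le_iff.mpr h2)).symm
    rw [h1] at hup
    -- lower bound for the contraction
    have hlow := ih (r ⊔ pr (G.x e) (G.y e)) S hd.2 (by
      intro f hf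
      have h2 := hcirc f (mem_insert_of_mem hf)
      have hfe : e ≠ f := fun h => he (h ▸ hf)
      rw [erase_insert_of_ne hfe, ← step_eq] at h2
      exact h2)
      (fun B S' hB hS => by
        rw [step_eq]
        exact hn _ S' (insert_subset_insert e hB) (hS.trans hss))
    rw [step_eq] at hlow
    rw [insert_union, m_insert G q heS, hcard]
    set p := 1 / (q - 1) with hpdef
    set T := m G q (r ⊔ conn G (insert e C)) S with hT
    have h4 : (1 + p) * ((1 + p) ^ (C.card - 1) * (1 - (C.card - 1 : ℝ) * p) * T) -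
        p * ((1 + p) ^ C.card * T) =
        (1 + p) ^ (C.card + 1 - 1) * (1 - ((C.card + 1 : ℕ) - 1 : ℝ) * p) * T := by
      have h5 : (1 + p) ^ C.card = (1 + p) ^ (C.card - 1) * (1 + p) := by
        rw [← pow_succ]; congr 1; omega
      rw [Nat.add_sub_cancel, h5]
      push_cast
      ring
    rw [← h4]
    have h6 := mul_le_mul_of_nonneg_left hlow (by linarith : (0 : ℝ) ≤ 1 + p)
    have h7 := mul_le_mul_of_nonneg_left hup hp.le
    linarith

/-- a short circuit in a minimal counterexample is impossible -/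
theorem no_short' (G : MG V E) {q : ℝ} (hq : 1 < q)
    (hnn : ∀ F S : Finset E, (conn G F ≠ ⊥ ∨ S ≠ univ) → 0 ≤ m G q (conn G F) S)
    (hpos : ∀ F : Finset E, conn G F ≠ ⊥ → 0 < m G q (conn G F) univ)
    (hloop : ∀ e, G.x e ≠ G.y e) (U : Finset E) (hU : Dep G U) (hUq : (U.card : ℝ) < q) :
    0 < m G q ⊥ univ := by
  obtain ⟨C, hCU, hC, hcirc⟩ := exists_circ G U hU
  have hCq : (C.card : ℝ) < q := lt_of_le_of_lt (by exact_mod_cast card_le_card hCU) hUq
  have hu : C ∪ (univ \ C) = univ := Finset.union_sdiff_of_subset (subset_univ C)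
  have h1 := circ_lower' G hq C hC ⊥ (univ \ C) disjoint_sdiff hcirc (by
    intro B S' _ hS
    rw [hu] at hS
    rw [bot_sup_eq]
    exact hnn B S' (Or.inr (ssubset_univ_iff.1 hS)))
  rw [hu, bot_sup_eq] at h1
  have hne : conn G C ≠ ⊥ := by
    intro h
    obtain ⟨e, he⟩ := hC
    have h2 : conn G C (G.x e) (G.y e) := (conn_le_iff G).1 le_rfl e he
    rw [h] at h2
    exact hloop e h2
  have h2 : m G q (conn G C) (univ \ C) = m G q (conn G C) univ := by
    have h3 := m_loops G q (conn G C) (S := C) (O := univ \ C) (fun e he =>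
      (conn_le_iff G).1 le_rfl e he)
    rw [union_comm, hu] at h3
    exact h3.symm
  rw [h2] at h1
  have hT := hpos _ hne
  have hq1 : 0 < q - 1 := by linarith
  have h3 : 0 < 1 - ((C.card : ℝ) - 1) * (1 / (q - 1)) := by
    rw [mul_one_div, sub_pos, div_lt_one hq1]; linarith
  have h4 : 0 < (1 + 1 / (q - 1)) ^ (C.card - 1) := by positivity
  exact lt_of_lt_of_le (mul_pos (mul_pos h4 h3) hT) h1

/-- a minimal counterexample -/
structure MCE (q : ℝ) (G : MG V E) : Prop where
  bl : Bridgeless G
  neg : m G q ⊥ univ ≤ 0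
  pos : ∀ F S : Finset E, (conn G F ≠ ⊥ ∨ S ≠ univ) →
    (∀ e ∈ S, (conn G F ⊔ conn G (S.erase e)) (G.x e) (G.y e)) → 0 < m G q (conn G F) S
  nn : ∀ F S : Finset E, (conn G F ≠ ⊥ ∨ S ≠ univ) → 0 ≤ m G q (conn G F) S

variable {q : ℝ} {G : MG V E}

theorem MCE.posu (h : MCE q G) (F : Finset E) (hF : conn G F ≠ ⊥) :
    0 < m G q (conn G F) univ :=
  h.pos F univ (Or.inl hF) (fun e _ =>
    (le_sup_right : conn G (univ.erase e) ≤ conn G F ⊔ conn G (univ.erase e)) (h.bl e))

theorem MCE.loop (h : MCE q G) (e : E) : G.x e ≠ G.y e := by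
  intro hl
  have h1 : m G q ⊥ univ = m G q ⊥ (univ.erase e) := by
    have := m_loops G q (S := {e}) (O := univ.erase e) ⊥ (by
      intro e' he'
      rw [Finset.mem_singleton] at he'
      subst he'
      exact hl)
    rw [← this]
    congr 1
    ext x
    simp
  have h2 : 0 < m G q (conn G ∅) (univ.erase e) := by
    apply h.pos
    · right
      exact ((Finset.erase_ssubset (Finset.mem_univ e))).ne
    · intro e' he'
      have hne : e ≠ e' := (Finset.ne_of_mem_erase he').symm
      have h3 := h.bl e'
      have h4 : univ.erase e' = insert e ((univ.erase e).erase e') := by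
        ext x
        simp only [Finset.mem_erase, Finset.mem_univ, and_true, Finset.mem_insert]
        by_cases hx : x = e
        · simp [hx, hne]
        · simp [hx]
      rw [h4, conn_insert, sup_pr_of_rel (by rw [hl])] at h3
      rw [conn_empty, bot_sup_eq]
      exact h3
  rw [conn_empty] at h2
  have := h.neg
  linarith

theorem conn_single (G : MG V E) (e : E) : conn G {e} = pr (G.x e) (G.y e) := by
  have := conn_insert G e ∅
  rw [conn_empty, bot_sup_eq] at this
  simpa using this

theorem MCE.deg (h : MCE q G) (hq : 1 < q) (v : V) (hv : (cut G {v} {v}ᶜ).Nonempty) :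
    3 ≤ (cut G {v} {v}ᶜ).card := by
  have hl := h.loop
  have hG := h.neg
  by_contra hcon
  have hle : (cut G {v} {v}ᶜ).card ≤ 2 := by omega
  have hpos : 0 < (cut G {v} {v}ᶜ).card := hv.card_pos
  rcases Nat.lt_or_ge (cut G {v} {v}ᶜ).card 2 with hlt | hge
  · have h1 : (cut G {v} {v}ᶜ).card = 1 := by omega
    obtain ⟨e, he⟩ := Finset.card_eq_one.1 h1
    refine cut_edge_bridge G v (univ.erase e) ?_ hl (e := e) (by rw [he]; simp) (h.bl e)
    rw [he, Finset.disjoint_singleton_right]
    exact Finset.notMem_erase _ _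
  · have h2 : (cut G {v} {v}ᶜ).card = 2 := by omega
    obtain ⟨e1, e2, hne, he⟩ := Finset.card_eq_two.1 h2
    have hU2 : (univ : Finset E) = insert e1 (univ.erase e1) := by
      rw [Finset.insert_erase (Finset.mem_univ e1)]
    have hU : univ.erase e1 = insert e2 ((univ.erase e1).erase e2) := by
      rw [Finset.insert_erase]
      simp [hne.symm]
    have k1 : m G q ⊥ univ = (1 + 1 / (q - 1)) * m G q (pr (G.x e1) (G.y e1)) (univ.erase e1)
        - 1 / (q - 1) * m G q ⊥ (univ.erase e1) := by
      conv_lhs => rw [hU2]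
      rw [m_insert G q (Finset.notMem_erase e1 univ), bot_sup_eq]
    have k2 : m G q ⊥ (univ.erase e1) = 0 := by
      rw [hU]
      apply m_bridge G q (by linarith) (Finset.notMem_erase _ _)
      rw [bot_sup_eq]
      refine cut_edge_bridge G v _ ?_ hl (by rw [he]; simp)
      rw [he, Finset.disjoint_left]
      intro x hx hx2
      rw [Finset.mem_insert, Finset.mem_singleton] at hx2
      rw [Finset.mem_erase, Finset.mem_erase] at hx
      rcases hx2 with h3 | h3
      · exact hx.2.1 h3
      · exact hx.1 h3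
    have k3 : m G q (pr (G.x e1) (G.y e1)) univ
        = m G q (pr (G.x e1) (G.y e1)) (univ.erase e1) := by
      have := m_loops G q (S := {e1}) (O := univ.erase e1) (pr (G.x e1) (G.y e1)) (by
        intro x hx
        rw [Finset.mem_singleton] at hx
        subst hx
        exact Or.inr ⟨Or.inl rfl, Or.inr rfl⟩)
      rw [← this]
      congr 1
      rw [Finset.union_comm, ← Finset.insert_eq, Finset.insert_erase (Finset.mem_univ e1)]
    have k4 := h.posu {e1} (by rw [conn_single]; exact pr_ne_bot (hl e1))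
    rw [conn_single] at k4
    rw [k3] at k4
    rw [k1, k2, mul_zero, sub_zero] at hG
    have hp0 : 0 < 1 / (q - 1) := by apply div_pos one_pos; linarith
    have : 0 < (1 + 1 / (q - 1)) * m G q (pr (G.x e1) (G.y e1)) (univ.erase e1) :=
      mul_pos (by linarith) k4
    linarith

theorem MCE.short (h : MCE q G) (hq : 1 < q) (U : Finset E) (hUq : (U.card : ℝ) < q) :
    ¬ Dep G U := fun hU => by
  have := no_short' G hq h.nn h.posu h.loop U hU hUq
  have := h.neg
  linarith

/-- if there is a counterexample then there is a minimal one -/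
theorem exists_mce {w : ℕ} (hq : 1 < q)
    (hno : ∀ (V E : Type) [Fintype V] [DecidableEq V] [Fintype E] [DecidableEq E] [Nonempty V]
      (G : MG V E), HasTD w G.x G.y → ¬ MCE q G) : ∀ N, OkS q w N := by
  intro N
  induction N with
  | zero => intro V E _ _ _ _ _ G hN; omega
  | succ N ih =>
    intro V E _ _ _ _ _ G hN hT hb
    by_contra hneg
    push Not at hneg
    have ok : OkS q w (Fintype.card V + Fintype.card E) := by
      intro V' E' _ _ _ _ _ G' h1 h2 h3
      exact ih V' E' G' (by omega) h2 h3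
    exact hno V E G hT ⟨hb, hneg, pos_minor G hT ok, nn_minor hq G hT ok⟩

end Pool.Agent.TH455.FP
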