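import Pool.Agent.H753R2.FR.T_E1
import Pool.Agent.TH499.TF.TDec

set_option autoImplicit false
set_option linter.unusedSectionVars false

/-! # Tree decompositions of minors -/

namespace Pool.Agent.TH455.FP

open Finset Pool.Agent.H753R2.FR Pool.Agent.TH499.TF

section
variable {V : Type}

/-- the class of `v` meets the bag `i` -/
def Ii (B : ℕ → Finset V) (r : Setoid V) (v : V) (i : ℕ) : Prop := ∃ a ∈ B i, r v a

theorem Ii_rel {B : ℕ → Finset V} {r : Setoid V} {v w : V} {i : ℕ} (h : r v w)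
    (hv : Ii B r v i) : Ii B r w i := by
  obtain ⟨a, ha, hr⟩ := hv
  exact ⟨a, ha, r.trans (r.symm h) hr⟩

theorem Ii_sup {B : ℕ → Finset V} {r : Setoid V} {x y v : V} {i : ℕ} :
    Ii B (r ⊔ pr x y) v i ↔ Ii B r v i ∨ ((r v x ∨ r v y) ∧ (Ii B r x i ∨ Ii B r y i)) := by
  constructor
  · rintro ⟨a, ha, hr⟩
    rw [sup_pr_iff] at hr
    rcases hr with h | ⟨h1, h2⟩ | ⟨h1, h2⟩
    · exact Or.inl ⟨a, ha, h⟩
    · exact Or.inr ⟨Or.inl h1, Or.inr ⟨a, ha, h2⟩⟩
    · exact Or.inr ⟨Or.inr h1, Or.inl ⟨a, ha, h2⟩⟩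
  · have hle : r ≤ r ⊔ pr x y := le_sup_left
    have hxy : (r ⊔ pr x y) x y := pr_le_iff.1 (le_sup_right : pr x y ≤ r ⊔ pr x y)
    rintro (⟨a, ha, h⟩ | ⟨h1, h2⟩)
    · exact ⟨a, ha, hle h⟩
    · have hv : (r ⊔ pr x y) v x := by
        rcases h1 with h1 | h1
        · exact hle h1
        · exact (r ⊔ pr x y).trans (hle h1) ((r ⊔ pr x y).symm hxy)
      rcases h2 with ⟨a, ha, h⟩ | ⟨a, ha, h⟩
      · exact ⟨a, ha, (r ⊔ pr x y).trans hv (hle h)⟩
      · exact ⟨a, ha, (r ⊔ pr x y).trans hv ((r ⊔ pr x y).trans hxy (hle h))⟩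

theorem two_conn' {n : ℕ} {par : ℕ → ℕ} {P Q : ℕ → Prop}
    (h0 : ∀ i, 0 < i → i < n → par i < i)
    (hP : ∀ i j, j < i → i < n → P i → P j → P (par i))
    (hQ : ∀ i j, j < i → i < n → Q i → Q j → Q (par i))
    (hb : ∃ b, b < n ∧ P b ∧ Q b) {i j : ℕ} (hji : j < i) (hi : i < n)
    (ha : P i) (ha' : Q j) : P (par i) ∨ Q (par i) := by
  classical
  obtain ⟨hb1, hb2, hb3⟩ := Nat.find_spec hb
  have hmin := fun m => @Nat.find_min' _ _ hb m
  generalize Nat.find hb = b at hb1 hb2 hb3 hmin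
  rcases Nat.lt_trichotomy b i with h | h | h
  · exact Or.inl (hP i b h hi ha hb2)
  · subst h
    exact Or.inr (hQ b j hji hi hb3 ha')
  · have h5 := hP b i h hb1 hb2 ha
    have h6 := hQ b j (by omega) hb1 hb3 ha'
    have h7 := h0 b (by omega) hb1
    have := hmin (par b) ⟨by omega, h5, h6⟩
    omega

theorem conn_step {n : ℕ} {par : ℕ → ℕ} {B : ℕ → Finset V}
    (h0 : ∀ i, 0 < i → i < n → par i < i) {r : Setoid V}
    (h2 : ∀ i j v, j < i → i < n → Ii B r v i → Ii B r v j → Ii B r v (par i)) {x y : V}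
    (hb : ∃ b, b < n ∧ x ∈ B b ∧ y ∈ B b) (i j : ℕ) (v : V) (hji : j < i) (hi : i < n)
    (hvi : Ii B (r ⊔ pr x y) v i) (hvj : Ii B (r ⊔ pr x y) v j) :
    Ii B (r ⊔ pr x y) v (par i) := by
  obtain ⟨b, hbn, hbx, hby⟩ := hb
  have hbx' : Ii B r x b := ⟨x, hbx, r.refl x⟩
  have hby' : Ii B r y b := ⟨y, hby, r.refl y⟩
  have key : (Ii B r x i ∨ Ii B r y i) → (Ii B r x j ∨ Ii B r y j) →
      Ii B r x (par i) ∨ Ii B r y (par i) := by
    rintro (h | h) (h' | h')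
    · exact Or.inl (h2 i j x hji hi h h')
    · exact two_conn' (P := Ii B r x) (Q := Ii B r y) h0 (fun i j a b => h2 i j x a b)
        (fun i j a b => h2 i j y a b) ⟨b, hbn, hbx', hby'⟩ hji hi h h'
    · exact (two_conn' (P := Ii B r y) (Q := Ii B r x) h0 (fun i j a b => h2 i j y a b)
        (fun i j a b => h2 i j x a b) ⟨b, hbn, hby', hbx'⟩ hji hi h h').symm
    · exact Or.inr (h2 i j y hji hi h h')
  rw [Ii_sup] at hvi hvj ⊢
  by_cases hv : r v x ∨ r v y
  · have conv : ∀ k, Ii B r v k → Ii B r x k ∨ Ii B r y k := fun k hk =>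
      hv.elim (fun h => Or.inl (Ii_rel h hk)) (fun h => Or.inr (Ii_rel h hk))
    exact Or.inr ⟨hv, key (hvi.elim (conv i) (·.2)) (hvj.elim (conv j) (·.2))⟩
  · rcases hvi with h | h
    · rcases hvj with h' | h'
      · exact Or.inl (h2 i j v hji hi h h')
      · exact absurd h'.1 hv
    · exact absurd h.1 hv

end

/-- minors have no larger treewidth -/
theorem hasTD_minor {V E V' E' : Type} [Fintype V] [DecidableEq V] [Fintype E] [DecidableEq E]
    [DecidableEq V'] {w : ℕ} (G : MG V E) (h : HasTD w G.x G.y) (F : Finset E) (φ : V → V')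
    (ψ : E' → E) (hφ : ∀ a b, φ a = φ b ↔ conn G F a b) :
    HasTD w (fun e => φ (G.x (ψ e))) (fun e => φ (G.y (ψ e))) := by
  obtain ⟨n, par, B, h0, h1, h2, h4⟩ := h
  have hQ : ∀ i j v, j < i → i < n → Ii B (conn G F) v i → Ii B (conn G F) v j →
      Ii B (conn G F) v (par i) := by
    clear hφ
    induction F using Finset.induction_on with
    | empty =>
      rintro i j v hji hi ⟨a, ha, hr⟩ ⟨b, hb, hs⟩
      rw [conn_empty] at hr hs ⊢
      have e1 : v = a := hr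
      have e2 : v = b := hs
      subst e1
      subst e2
      exact ⟨v, h2 i j v hji hi ha hb, rfl⟩
    | insert e F _ ih =>
      rw [conn_insert]
      exact conn_step h0 ih (h1 e)
  refine ⟨n, par, fun i => (B i).image φ, h0, ?_, ?_, fun i hi => card_image_le.trans (h4 i hi)⟩
  · intro e
    obtain ⟨i, hin, hi1, hi2⟩ := h1 (ψ e)
    exact ⟨i, hin, mem_image_of_mem _ hi1, mem_image_of_mem _ hi2⟩
  · intro i j v hji hi hvi hvj
    change v ∈ (B i).image φ at hvi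
    change v ∈ (B j).image φ at hvj
    change v ∈ (B (par i)).image φ
    rw [mem_image] at hvi hvj ⊢
    obtain ⟨a, ha, rfl⟩ := hvi
    obtain ⟨b, hb, hab⟩ := hvj
    obtain ⟨c, hc, hac⟩ := hQ i j a hji hi ⟨a, ha, Setoid.refl' _ a⟩
      ⟨b, hb, (hφ a b).1 hab.symm⟩
    exact ⟨c, hc, ((hφ a c).2 hac).symm⟩

end Pool.Agent.TH455.FP
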